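import Pool.Agent.Helper57_C2.Stmts
import Pool.Agent.Helper24_K9.Duc
import Pool.Agent.Helper2_K9.PUG
import Pool.Agent.Helper69_K9.Fmg

/-!
# Squad C2, row DUV (helper92): the blocks of `N(Q) / Q`

Text: `AWC_C2.md`.
-/

open scoped BigOperators Pointwise

set_option linter.unusedSectionVars false

noncomputable section

namespace Pool.Agent.PP.C2.H92

open Pool.Agent.Helper51_AWC Pool.Agent.Helper79_WRA Pool.Agent.PP Pool.Agent.PP.KF
open Pool.Agent.PP.K9

section push

variable {F A B C : Type} [Field F] [Group A] [Group B] [Group C] [Finite A] [Finite B] [Finite C]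

theorem push_add (p : A →* B) (a b : A → F) :
    H75.push p (a + b) = H75.push p a + H75.push p b := by
  classical
  have := Fintype.ofFinite A
  funext y
  rw [Pi.add_apply, H75.push_eq, H75.push_eq, H75.push_eq, ← Finset.sum_add_distrib]
  apply Finset.sum_congr rfl
  intro x _
  split_ifs
  · rfl
  · rw [add_zero]

/-- the image of a function which vanishes outside a subgroup -/
theorem push_inj (p : A →* B) (i : C →* A) (hi : Function.Injective i) (g : A → F)
    (hg : ∀ x, x ∉ Set.range i → g x = 0) :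
    H75.push (p.comp i) (fun c => g (i c)) = H75.push p g := by
  classical
  have := Fintype.ofFinite A
  have := Fintype.ofFinite C
  funext y
  rw [H75.push_eq, H75.push_eq]
  apply Fintype.sum_of_injective i hi
  · intro x hx
    rw [hg x hx, ite_self]
  · intro c
    rfl

theorem push_off (p : A →* B) (g : A → F) (y : B) (hy : ∀ x, p x ≠ y) : H75.push p g y = 0 := by
  classical
  have := Fintype.ofFinite A
  rw [H75.push_eq]
  apply Finset.sum_eq_zero
  intro x _
  rw [if_neg (hy x)]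

theorem push_range (p : A →* B) (g : A → F) (y : p.range) :
    H75.push p.rangeRestrict g y = H75.push p g y := by
  classical
  have := Fintype.ofFinite A
  rw [H75.push_eq, H75.push_eq]
  apply Finset.sum_congr rfl
  intro x _
  have h : p.rangeRestrict x = y ↔ p x = (y : B) := Subtype.ext_iff
  by_cases h1 : p.rangeRestrict x = y
  · rw [if_pos h1, if_pos (h.1 h1)]
  · rw [if_neg h1, if_neg (fun h2 => h1 (h.2 h2))]

end push

section core

variable {F G A : Type} [Field F] [Group G] [Finite G] [Group A] [Finite A] {ℓ : ℕ}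
  [hfact : Fact ℓ.Prime]

/-- good subgroups of the blocks of the quotient -/
theorem good_up (hF : GoodF ℓ F) {e : G → F} {Q : Subgroup G} {N : Subgroup G}
    (hIN : IsIdem (fun t : N => br Q e t)) {p : N →* A} (hp : Function.Surjective p)
    (hk : IsPGroup ℓ p.ker) {f : A → F} (hf : IsIdem f)
    (hpf : mulF (H75.push p (fun t : N => br Q e t)) f = f) {R : Subgroup A}
    (hR : IsPGroup ℓ R) (hg : Gd f R) : Gd e (upm p R) := by
  have hpI : IsIdem (H75.push p (fun t : N => br Q e t)) := H75.push_isIdem hp hIN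
  have h1 : Gd (H75.push p (fun t : N => br Q e t)) R := by
    by_contra hcon
    obtain ⟨x, hx, hfx⟩ := hg
    apply hfx
    have h2 : br R (H75.push p (fun t : N => br Q e t)) = 0 := by
      funext s
      by_cases hs : s ∈ Subgroup.centralizer (R : Set A)
      · rw [H66.br_of_mem hs]
        by_contra h
        exact hcon ⟨s, hs, h⟩
      · exact H66.br_of_not_mem hs
    have h3 : br R f = 0 := by
      rw [← hpf, H66.br_mulF hF hR (H66.IsCl.inv hpI.1 R) (H66.IsCl.inv hf.1 R), h2,
        H75.mulF_zero_left]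
    have h4 := congrFun h3 x
    rwa [H66.br_of_mem hx] at h4
  have hR1 : IsPGroup ℓ (R.comap p) := (H75.isPGroup_comap_iff hp hk R).2 hR
  have hker : p.ker ≤ R.comap p := by
    intro x hx
    rw [Subgroup.mem_comap, (MonoidHom.mem_ker).1 hx]
    exact one_mem _
  have h5 : Gd (fun t : N => br Q e t) (R.comap p) := by
    rw [H02.pug ℓ F hF N A p hp hk _ hIN (R.comap p) hker hR1,
      Subgroup.map_comap_eq_self_of_surjective hp]
    exact h1
  obtain ⟨x, hx, hex⟩ := h5
  refine ⟨x, ?_, ?_⟩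
  · rw [Subgroup.mem_centralizer_iff]
    intro y hy
    obtain ⟨z, hz, rfl⟩ := hy
    exact congrArg Subtype.val (Subgroup.mem_centralizer_iff.1 hx z hz)
  · intro h
    apply hex
    by_cases hxQ : (x : G) ∈ Subgroup.centralizer (Q : Set G)
    · change br Q e x = 0
      rw [H66.br_of_mem hxQ]
      exact h
    · exact H66.br_of_not_mem hxQ

theorem card_upm {N : Subgroup G} {p : N →* A} (hp : Function.Surjective p) (R : Subgroup A) :
    Nat.card (upm p R) = Nat.card p.ker * Nat.card R := by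
  unfold upm
  rw [Subgroup.card_map_of_injective N.subtype_injective, H75.card_comap hp]

theorem core (hF : GoodF ℓ F) {e : G → F} (he : IsIdem e) {V : Subgroup G} (hV : Tp ℓ e V)
    (hVc : ∀ a ∈ V, ∀ b ∈ V, a * b = b * a)
    (fmg : ∀ Q : Subgroup G, IsPGroup ℓ Q → Gd e Q → ∃ g : G, Q ≤ conjS g V)
    (psn : ∀ (A B : Type) [Group A] [Finite A] [Group B] [Finite B] (p : A →* B),
      Function.Surjective p → IsPGroup ℓ p.ker → p.ker ≤ Subgroup.center A → ∀ e : A → F,
      IsBlk e → IsBlk (H75.push p e))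
    (covn : ∀ (X : Type) [Group X] [Finite X] (Y : Subgroup X), Y.Normal → ∀ b : X → F, Bk Y b →
      ∀ e : X → F, IsIdem e → mulF e b ≠ 0 → ∀ Q : Subgroup X, Q ≤ Y → IsPGroup ℓ Q → Gd b Q →
      Gd e Q)
    {Q : Subgroup G} (hQ : IsPGroup ℓ Q) {N C : Subgroup G}
    (hNdef : N = Subgroup.normalizer (Q : Set G)) (hCdef : C = Subgroup.centralizer (Q : Set G))
    (gdv : ∀ g : G → F, Bk C g → mulF (br Q e) g = g → ∃ P : Subgroup G, IsPGroup ℓ P ∧ Q ≤ P ∧
      P ≤ C ∧ Nat.card P = Nat.card V ∧ Gd g P)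
    {p : N →* A} (hp : Function.Surjective p) (hk : p.ker = Q.subgroupOf N)
    {f : A → F} (hf : IsBlk f) (hpf : mulF (H75.push p (fun t : N => br Q e t)) f = f) :
    ∃ R : Subgroup A, Tp ℓ f R ∧ ∃ g : G, upm p R = conjS g V := by
  classical
  have hQN : Q ≤ N := by
    rw [hNdef]
    exact Subgroup.le_normalizer
  have hCN : C ≤ N := by
    rw [hNdef, hCdef]
    exact Subgroup.centralizer_le_normalizer _
  have hkp : IsPGroup ℓ p.ker := by
    rw [hk]
    exact hQ.comap_subtype
  have hconjC : ∀ n ∈ N, ∀ x ∈ C, n * x * n⁻¹ ∈ C := by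
    intro n hn x hx
    rw [hNdef] at hn
    rw [hCdef, Subgroup.mem_centralizer_iff] at hx ⊢
    intro q hq
    have h1 : n⁻¹ * q * n ∈ Q := by
      have h2 := (Subgroup.mem_normalizer_iff.1 (inv_mem hn) q).1 hq
      rwa [inv_inv] at h2
    have h2 := hx _ h1
    calc q * (n * x * n⁻¹) = n * ((n⁻¹ * q * n) * x) * n⁻¹ := by group
      _ = n * (x * (n⁻¹ * q * n)) * n⁻¹ := by rw [h2]
      _ = (n * x * n⁻¹) * q := by group
  have hbrs : ∀ x, x ∉ C → br Q e x = 0 := by
    intro x hx
    rw [hCdef] at hx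
    exact H66.br_of_not_mem hx
  have hbrN : ∀ x, x ∉ N → br Q e x = 0 := fun x hx => hbrs x (fun h => hx (hCN h))
  have hinv : H66.Inv Q e := H66.IsCl.inv he.1 Q
  have hcl : ∀ x, ∀ n ∈ N, br Q e (n * x * n⁻¹) = br Q e x := by
    intro x n hn
    by_cases hx : x ∈ C
    · have h2 := hconjC n hn x hx
      rw [hCdef] at hx h2
      rw [H66.br_of_mem hx, H66.br_of_mem h2]
      exact he.1 _ _
    · rw [hbrs _ hx, hbrs]
      intro h
      apply hx
      have h1 := hconjC n⁻¹ (N.inv_mem hn) _ h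
      have h2 : n⁻¹ * (n * x * n⁻¹) * n⁻¹⁻¹ = x := by group
      rwa [h2] at h1
  have hbrbr : mulF (br Q e) (br Q e) = br Q e := by
    rw [← H66.br_mulF hF hQ hinv hinv, he.2]
  have hIN : IsIdem (fun t : N => br Q e t) := by
    refine ⟨fun x y => hcl x y y.2, ?_⟩
    rw [← H75.mulF_res N (br Q e) hbrN, hbrbr]
  have hIC : IsIdem (fun t : C => br Q e t) := by
    refine ⟨fun x y => hcl x y (hCN y.2), ?_⟩
    rw [← H75.mulF_res C (br Q e) hbrs, hbrbr]
  -- `Q` is abelian
  have hup : ∀ R : Subgroup A, IsPGroup ℓ R → Gd f R → Gd e (upm p R) := fun R hR hg =>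
    good_up hF hIN hp hkp hf.1 hpf hR hg
  have hbotQ : upm p (⊥ : Subgroup A) = Q := by
    unfold upm
    rw [MonoidHom.comap_bot, hk, Subgroup.subgroupOf_map_subtype]
    exact inf_eq_left.2 hQN
  have hGQ : Gd e Q := by
    have h1 : Gd f (⊥ : Subgroup A) := by
      obtain ⟨x, hx⟩ := Function.ne_iff.1 hf.2.1
      refine ⟨x, ?_, hx⟩
      rw [Subgroup.mem_centralizer_iff]
      intro y hy
      have : y = 1 := Subgroup.mem_bot.1 hy
      rw [this, one_mul, mul_one]
    have h2 := hup ⊥ IsPGroup.of_bot h1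
    rwa [hbotQ] at h2
  have hQC : Q ≤ C := by
    obtain ⟨g, hg⟩ := fmg Q hQ hGQ
    intro x hx
    rw [hCdef, Subgroup.mem_centralizer_iff]
    intro y hy
    have h1 := mem_conjS.1 (hg hx)
    have h2 := mem_conjS.1 (hg hy)
    have h3 := hVc _ h2 _ h1
    have e1 : y * x = g * (g⁻¹ * y * g * (g⁻¹ * x * g)) * g⁻¹ := by group
    have e2 : x * y = g * (g⁻¹ * x * g * (g⁻¹ * y * g)) * g⁻¹ := by group
    rw [e1, e2, h3]
  -- the inclusion of `C`
  obtain ⟨i, hi⟩ : ∃ i : C →* N, i = Subgroup.inclusion hCN := ⟨_, rfl⟩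
  have hic : ∀ c : C, ((i c : N) : G) = c := by
    intro c
    rw [hi]
    rfl
  have hii : Function.Injective i := by
    rw [hi]
    exact Subgroup.inclusion_injective hCN
  have hir : ∀ x : N, (x : G) ∈ C → x ∈ Set.range i := by
    intro x hx
    exact ⟨⟨x, hx⟩, Subtype.ext (hic _)⟩
  have hpE : H75.push (p.comp i) (fun t : C => br Q e t) = H75.push p (fun t : N => br Q e t) := by
    rw [← push_inj p i hii (fun t : N => br Q e t)]
    · congr 1
      funext c
      rw [hic]
    · intro x hx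
      apply hbrs
      intro h
      exact hx (hir x h)
  -- the block of `C`
  obtain ⟨g0, hg0, heg0, hgf⟩ := H24.exists_blk
    (L := fun a : C → F => mulF (H75.push (p.comp i) a) f)
    (by rw [H75.push_zero]; exact H75.mulF_zero_left _)
    (fun a b => by rw [push_add, H24.mulF_add_l]) hIC (by
      show mulF (H75.push (p.comp i) (fun t : C => br Q e t)) f ≠ 0
      rw [hpE, hpf]
      exact hf.2.1)
  obtain ⟨g, hgdef⟩ : ∃ g : G → F, g = H75.ext0 C g0 := ⟨_, rfl⟩
  have hgs : ∀ x, x ∉ C → g x = 0 := by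
    rw [hgdef]
    exact H75.ext0_supp C g0
  have hgC : (fun t : C => g t) = g0 := by
    rw [hgdef]
    exact funext (H75.ext0_apply C g0)
  have hBg : Bk C g := ⟨hgs, by rw [hgC]; exact hg0⟩
  have heg : mulF (br Q e) g = g := by
    apply H75.eq_of_res (H75.mulF_supp C hbrs hgs) hgs
    rw [H75.mulF_res C g hbrs, hgC, heg0]
  obtain ⟨P, hP, hQP, hPC, hcP, hgP⟩ := gdv g hBg heg
  have hPN : P ≤ N := hPC.trans hCN
  -- the image of `C`
  obtain ⟨q, hq⟩ : ∃ q : C →* A, q = p.comp i := ⟨_, rfl⟩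
  have hqc : ∀ c : C, q c = p (i c) := by
    intro c
    rw [hq]
    rfl
  have hqker : ∀ c : C, q c = 1 ↔ (c : G) ∈ Q := by
    intro c
    rw [hqc, ← MonoidHom.mem_ker, hk, Subgroup.mem_subgroupOf, hic]
  have hrs : Function.Surjective q.rangeRestrict := MonoidHom.rangeRestrict_surjective q
  have hrk : IsPGroup ℓ q.rangeRestrict.ker := by
    have h1 : q.rangeRestrict.ker = Q.subgroupOf C := by
      rw [MonoidHom.ker_rangeRestrict]
      ext c
      rw [MonoidHom.mem_ker, hqker, Subgroup.mem_subgroupOf]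
    rw [h1]
    exact hQ.comap_subtype
  have hrc : q.rangeRestrict.ker ≤ Subgroup.center C := by
    intro c hc
    rw [MonoidHom.ker_rangeRestrict, MonoidHom.mem_ker, hqker] at hc
    rw [Subgroup.mem_center_iff]
    intro d
    apply Subtype.ext
    have hd : (d : G) ∈ Subgroup.centralizer (Q : Set G) := hCdef ▸ d.2
    rw [Subgroup.mem_centralizer_iff] at hd
    exact (hd _ hc).symm
  have hb1 : IsBlk (H75.push q.rangeRestrict g0) := psn C q.range q.rangeRestrict hrs hrk hrc g0 hg0
  obtain ⟨b, hb⟩ : ∃ b : A → F, b = H75.push q g0 := ⟨_, rfl⟩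
  have hbr' : (fun t : q.range => b t) = H75.push q.rangeRestrict g0 := by
    funext t
    rw [hb, push_range]
  have hBb : Bk q.range b := by
    refine ⟨?_, by rw [hbr']; exact hb1⟩
    intro x hx
    rw [hb]
    apply push_off
    intro c hc
    exact hx ⟨c, hc⟩
  have hYn : q.range.Normal := by
    refine ⟨?_⟩
    rintro _ ⟨c, rfl⟩ a
    obtain ⟨n, rfl⟩ := hp a
    refine ⟨⟨(n : G) * c * (n : G)⁻¹, hconjC n n.2 c c.2⟩, ?_⟩
    rw [hqc, hqc, ← map_mul, ← map_inv, ← map_mul]
    congr 1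
    apply Subtype.ext
    rw [hic]
    show (n : G) * c * (n : G)⁻¹ = n * (i c : N) * (n : G)⁻¹
    rw [hic]
  -- the image of `P`
  obtain ⟨R, hR⟩ : ∃ R : Subgroup A, R = (P.subgroupOf N).map p := ⟨_, rfl⟩
  have hRp : IsPGroup ℓ R := by
    rw [hR]
    exact hP.comap_subtype.map p
  have hRY : R ≤ q.range := by
    rw [hR]
    rintro _ ⟨n, hn, rfl⟩
    have hnC : (n : G) ∈ C := hPC hn
    refine ⟨⟨n, hnC⟩, ?_⟩
    rw [hqc]
    congr 1
    exact Subtype.ext (hic _)
  have hGb : Gd b R := by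
    have h1 : Gd g0 (P.subgroupOf C) := by
      obtain ⟨x, hx, hgx⟩ := hgP
      have hxC : x ∈ C := by
        by_contra h
        exact hgx (hgs x h)
      refine ⟨⟨x, hxC⟩, ?_, ?_⟩
      · rw [Subgroup.mem_centralizer_iff]
        intro y hy
        apply Subtype.ext
        exact Subgroup.mem_centralizer_iff.1 hx y hy
      · have h2 : g x = g0 ⟨x, hxC⟩ := congrFun hgC ⟨x, hxC⟩
        rw [← h2]
        exact hgx
    have h2 : q.rangeRestrict.ker ≤ P.subgroupOf C := by
      intro c hc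
      rw [MonoidHom.ker_rangeRestrict, MonoidHom.mem_ker, hqker] at hc
      exact hQP hc
    have h3 := (H02.pug ℓ F hF C q.range q.rangeRestrict hrs hrk g0 hg0.1 (P.subgroupOf C) h2
      hP.comap_subtype).1 h1
    obtain ⟨y, hy, hgy⟩ := h3
    refine ⟨y, ?_, ?_⟩
    · rw [Subgroup.mem_centralizer_iff]
      intro z hz
      have hz' : z ∈ R := hz
      rw [hR] at hz'
      obtain ⟨n, hn, rfl⟩ := hz'
      have hnC : (n : G) ∈ C := hPC hn
      have h4 := Subgroup.mem_centralizer_iff.1 hy (q.rangeRestrict ⟨n, hnC⟩)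
        ⟨⟨n, hnC⟩, hn, rfl⟩
      have h5 := congrArg Subtype.val h4
      have h6 : ((q.rangeRestrict ⟨n, hnC⟩ : q.range) : A) = p n := by
        show q ⟨n, hnC⟩ = p n
        rw [hqc]
        congr 1
        exact Subtype.ext (hic _)
      change ((q.rangeRestrict ⟨n, hnC⟩ : q.range) : A) * y = y * ((q.rangeRestrict ⟨n, hnC⟩ :
        q.range) : A) at h5
      rw [h6] at h5
      exact h5
    · rw [hb, ← push_range]
      exact hgy
  have hfb : mulF f b ≠ 0 := by
    rw [H75.mulF_comm_cl hf.1.1 b, hb, hq]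
    exact hgf
  have hGf : Gd f R := covn A q.range hYn b hBb f hf.1 hfb R hRY hRp hGb
  -- the preimage of `R`
  have hRc : R.comap p = P.subgroupOf N := by
    rw [hR, Subgroup.comap_map_eq, hk]
    apply sup_eq_left.2
    intro x hx
    exact hQP hx
  have hRu : upm p R = P := by
    unfold upm
    rw [hRc, Subgroup.subgroupOf_map_subtype]
    exact inf_eq_left.2 hPN
  refine ⟨R, ⟨hRp, hGf, ?_⟩, ?_⟩
  · intro S hS hgS
    have h1 := hup S hS hgS
    have h2 : IsPGroup ℓ (upm p S) := ((H75.isPGroup_comap_iff hp hkp S).2 hS).map N.subtype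
    have h3 := hV.mx _ h2 h1
    rw [← hcP, ← hRu, card_upm hp, card_upm hp] at h3
    exact Nat.le_of_mul_le_mul_left h3 Nat.card_pos
  · have h1 := hup R hRp hGf
    rw [hRu] at h1 ⊢
    obtain ⟨x, hx⟩ := fmg P hP h1
    refine ⟨x, ?_⟩
    apply Subgroup.eq_of_le_of_card_ge hx
    rw [KF.H55.card_conj4, hcP]

end core

attribute [local instance] Ideal.Quotient.field

/-- DUV -/
theorem duv (hG : GdvStmt) (hC : CovnStmt) (hP : PsnStmt) : DuvStmt := by
  intro ℓ hfact M _ hM G _ _ e he V hV hVc Q hQ A _ _ p hp hk f hf hpf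
  have hF : GoodF ℓ (FF M) := H50.fld ℓ hfact.out M hM
  exact core hF he.1 hV hVc (H69.fmg ℓ M hM G e he V hV).1
    (fun A B _ _ _ _ p => hP ℓ (FF M) hF A B p)
    (fun X _ _ Y => hC ℓ (FF M) hF X Y) hQ rfl rfl
    (fun g hg heg => hG ℓ M hM G e he V hV hVc Q hQ g hg heg) hp hk hf hpf

end Pool.Agent.PP.C2.H92
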